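import Pool.Agent.Helper93.RC.Spec

/-!
# Module P4: the range `A ≤ n p`, `n p² ≤ K` (single 5-cycles)
-/

namespace Pool.Agent.Helper55.RC

open Pool.Agent.Helper93.RC Filter Topology
open scoped Classical

variable {n : ℕ}

/-! ### Basic facts on `Ex` -/

theorem wt_nonneg (n : ℕ) {p : ℝ} (h0 : 0 ≤ p) (h1 : p ≤ 1) (G : SimpleGraph (Fin n)) :
    0 ≤ wt n p G := by
  unfold wt
  have : 0 ≤ 1 - p := by linarith
  positivity

theorem Ex_mono {p : ℝ} (h0 : 0 ≤ p) (h1 : p ≤ 1) {f g : SimpleGraph (Fin n) → ℝ}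
    (h : ∀ G, f G ≤ g G) : Ex n p f ≤ Ex n p g := by
  unfold Ex
  exact Finset.sum_le_sum fun G _ => mul_le_mul_of_nonneg_left (h G) (wt_nonneg n h0 h1 G)

theorem Ex_add (p : ℝ) (f g : SimpleGraph (Fin n) → ℝ) :
    Ex n p (fun G => f G + g G) = Ex n p f + Ex n p g := by
  unfold Ex
  rw [← Finset.sum_add_distrib]
  exact Finset.sum_congr rfl fun G _ => by ring

theorem Ex_sub (p : ℝ) (f g : SimpleGraph (Fin n) → ℝ) :
    Ex n p (fun G => f G - g G) = Ex n p f - Ex n p g := by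
  unfold Ex
  rw [← Finset.sum_sub_distrib]
  exact Finset.sum_congr rfl fun G _ => by ring

theorem Ex_mul_left (p : ℝ) (c : ℝ) (f : SimpleGraph (Fin n) → ℝ) :
    Ex n p (fun G => c * f G) = c * Ex n p f := by
  unfold Ex
  rw [Finset.mul_sum]
  exact Finset.sum_congr rfl fun G _ => by ring

theorem Ex_sum {ι : Type*} (p : ℝ) (s : Finset ι) (f : ι → SimpleGraph (Fin n) → ℝ) :
    Ex n p (fun G => ∑ a ∈ s, f a G) = ∑ a ∈ s, Ex n p (f a) := by
  unfold Ex
  simp_rw [Finset.mul_sum]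
  exact Finset.sum_comm

theorem Ex_nonneg {p : ℝ} (h0 : 0 ≤ p) (h1 : p ≤ 1) {f : SimpleGraph (Fin n) → ℝ}
    (h : ∀ G, 0 ≤ f G) : 0 ≤ Ex n p f := by
  unfold Ex
  exact Finset.sum_nonneg fun G _ => mul_nonneg (wt_nonneg n h0 h1 G) (h G)

theorem gnp_eq (n : ℕ) (p : ℝ) (A : Set (SimpleGraph (Fin n))) :
    gnp n p A = Ex n p (fun G => if G ∈ A then 1 else 0) := by
  unfold gnp Ex wt
  refine Finset.sum_congr rfl fun G _ => ?_
  by_cases h : G ∈ A <;> simp [h]

/-! ### The indicator functions -/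

/-- indicator of an edge -/
noncomputable def ed (e : Sym2 (Fin n)) (G : SimpleGraph (Fin n)) : ℝ :=
  if e ∈ G.edgeSet then 1 else 0

/-- the induced 5-cycle -/
noncomputable def inner (f : ZMod 5 → Fin n) (G : SimpleGraph (Fin n)) : ℝ :=
  ∏ i : ZMod 5, (ed s(f i, f (i + 1)) G * (1 - ed s(f i, f (i + 2)) G))

/-- `x` is not adjacent to two far vertices of `f` -/
noncomputable def gd (f : ZMod 5 → Fin n) (x : Fin n) (G : SimpleGraph (Fin n)) : ℝ :=
  if ∃ i, G.Adj x (f i) ∧ G.Adj x (f (i + 2)) then 0 else 1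

/-- the image -/
noncomputable def im (f : ZMod 5 → Fin n) : Finset (Fin n) := Finset.univ.image f

theorem mem_im {f : ZMod 5 → Fin n} {x : Fin n} : x ∈ im f ↔ ∃ i, f i = x := by
  simp [im]

/-- the indicator of a good cycle -/
noncomputable def In (f : ZMod 5 → Fin n) (G : SimpleGraph (Fin n)) : ℝ :=
  inner f G * ∏ x ∈ (im f)ᶜ, gd f x G

theorem ed_nonneg (e : Sym2 (Fin n)) (G : SimpleGraph (Fin n)) : 0 ≤ ed e G := by
  unfold ed; split_ifs <;> norm_num

theorem ed_le (e : Sym2 (Fin n)) (G : SimpleGraph (Fin n)) : ed e G ≤ 1 := by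
  unfold ed; split_ifs <;> norm_num

theorem gd_nonneg (f : ZMod 5 → Fin n) (x : Fin n) (G : SimpleGraph (Fin n)) :
    0 ≤ gd f x G := by
  unfold gd; split_ifs <;> norm_num

theorem gd_le (f : ZMod 5 → Fin n) (x : Fin n) (G : SimpleGraph (Fin n)) :
    gd f x G ≤ 1 := by
  unfold gd; split_ifs <;> norm_num

theorem inner_nonneg (f : ZMod 5 → Fin n) (G : SimpleGraph (Fin n)) : 0 ≤ inner f G := by
  unfold inner
  refine Finset.prod_nonneg fun i _ => mul_nonneg (ed_nonneg _ _) ?_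
  have := ed_le s(f i, f (i + 2)) G
  linarith

theorem inner_le_one (f : ZMod 5 → Fin n) (G : SimpleGraph (Fin n)) : inner f G ≤ 1 := by
  unfold inner
  refine Finset.prod_le_one (fun i _ => mul_nonneg (ed_nonneg _ _) ?_) fun i _ => ?_
  · have := ed_le s(f i, f (i + 2)) G
    linarith
  · have h1 := ed_le s(f i, f (i + 2)) G
    have h2 := ed_nonneg s(f i, f (i + 2)) G
    have h3 := ed_le s(f i, f (i + 1)) G
    have h4 := ed_nonneg s(f i, f (i + 1)) G
    nlinarith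

theorem prod_gd_nonneg (f : ZMod 5 → Fin n) (S : Finset (Fin n)) (G : SimpleGraph (Fin n)) :
    0 ≤ ∏ x ∈ S, gd f x G := Finset.prod_nonneg fun x _ => gd_nonneg f x G

theorem prod_gd_le (f : ZMod 5 → Fin n) (S : Finset (Fin n)) (G : SimpleGraph (Fin n)) :
    ∏ x ∈ S, gd f x G ≤ 1 := Finset.prod_le_one (fun x _ => gd_nonneg f x G) fun x _ => gd_le f x G

theorem In_nonneg (f : ZMod 5 → Fin n) (G : SimpleGraph (Fin n)) : 0 ≤ In f G :=
  mul_nonneg (inner_nonneg f G) (prod_gd_nonneg f _ G)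

theorem In_le_inner (f : ZMod 5 → Fin n) (G : SimpleGraph (Fin n)) : In f G ≤ inner f G :=
  mul_le_of_le_one_right (inner_nonneg f G) (prod_gd_le f _ G)

/-! ### A good cycle gives a good configuration -/

theorem far5 : ∀ i j : ZMod 5, j ≠ i → j ≠ i + 1 → i ≠ j + 1 → j = i + 2 ∨ i = j + 2 := by
  decide

theorem common5 : ∀ i k : ZMod 5, (k = i + 1 ∨ i = k + 1) → (k = (i + 2) + 1 ∨ i + 2 = k + 1) →
    k = i + 1 := by
  decide

theorem adj5 : ∀ i k : ZMod 5, k = i ∨ k = i + 1 ∨ i = k + 1 ∨ k = i + 2 ∨ i = k + 2 := by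
  decide

theorem hasConf_of_In {f : ZMod 5 → Fin n} (hf : Function.Injective f)
    {G : SimpleGraph (Fin n)} (h : In f G ≠ 0) : HasConf G := by
  have hi : inner f G ≠ 0 := left_ne_zero_of_mul h
  have hg : ∏ x ∈ (im f)ᶜ, gd f x G ≠ 0 := right_ne_zero_of_mul h
  have h1 : ∀ i, G.Adj (f i) (f (i + 1)) := by
    intro i
    have := Finset.prod_ne_zero_iff.1 hi i (Finset.mem_univ _)
    have := left_ne_zero_of_mul this
    by_contra hc
    exact this (by simp [ed, hc])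
  have h2 : ∀ i, ¬ G.Adj (f i) (f (i + 2)) := by
    intro i
    have := Finset.prod_ne_zero_iff.1 hi i (Finset.mem_univ _)
    have := right_ne_zero_of_mul this
    intro hc
    exact this (by simp [ed, hc])
  have h3 : ∀ x, (∀ i, f i ≠ x) → ∀ i, ¬ (G.Adj x (f i) ∧ G.Adj x (f (i + 2))) := by
    intro x hx i hc
    have hx' : x ∈ (im f)ᶜ := by
      rw [Finset.mem_compl, mem_im]
      rintro ⟨i, hi⟩
      exact hx i hi
    have := Finset.prod_ne_zero_iff.1 hg x hx'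
    exact this (by unfold gd; rw [if_pos ⟨i, hc⟩])
  have hna : ∀ i j, Far i j → ¬ G.Adj (f i) (f j) := by
    rintro i j ⟨a, b, c⟩
    rcases far5 i j a b c with rfl | rfl
    · exact h2 i
    · exact fun h => h2 j h.symm
  have hadj : ∀ i k, G.Adj (f k) (f i) → (k = i + 1 ∨ i = k + 1) := by
    intro i k hk
    rcases adj5 i k with rfl | h | h | rfl | rfl
    · exact absurd hk (G.loopless.irrefl _)
    · exact Or.inl h
    · exact Or.inr h
    · exact absurd hk.symm (h2 i)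
    · exact absurd hk (h2 k)
  have hc : ∀ i z, G.Adj z (f i) → G.Adj z (f (i + 2)) → z = f (i + 1) := by
    intro i z ha hb
    by_cases hz : ∃ k, f k = z
    · obtain ⟨k, rfl⟩ := hz
      rw [common5 i k (hadj _ _ ha) (hadj _ _ hb)]
    · push Not at hz
      exact absurd ⟨ha, hb⟩ (h3 z hz i)
  refine ⟨5, fun i => {f i}, ?_⟩
  constructor
  · exact le_rfl
  · intro i; simp
  · intro i j hij x hx hx'
    simp only [Finset.mem_singleton] at hx hx'
    exact hij (hf (hx.symm.trans hx'))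
  · intro i x hx y hy hxy
    simp only [Finset.mem_singleton] at hx hy
    exact absurd (hx.trans hy.symm) hxy
  · intro i x hx y hy
    simp only [Finset.mem_singleton] at hx hy
    subst hx hy
    exact h1 i
  · intro i j l hij hjl x hx y hy
    simp only [Finset.mem_singleton] at hx hy
    subst hx hy
    exact ⟨f j, by simp, hna i j hij, hna j l hjl⟩
  · intro i j hij z z' ha hb ha' hb' hzz
    simp only [Finset.mem_singleton, forall_eq] at ha hb ha' hb'
    exfalso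
    apply hzz
    obtain ⟨a, b, c⟩ := hij
    rcases far5 i j a b c with rfl | rfl
    · rw [hc i z ha hb, hc i z' ha' hb']
    · rw [hc j z hb ha, hc j z' hb' ha']

/-! ### Expectations of products -/

/-- pairs inside the image -/
def Din (f : ZMod 5 → Fin n) : Set (Sym2 (Fin n)) := {e | ∀ x ∈ e, ∃ i, f i = x}

/-- pairs joining `x` to the image -/
def Dx (f : ZMod 5 → Fin n) (x : Fin n) : Set (Sym2 (Fin n)) := {e | ∃ i, e = s(x, f i)}

theorem mk_mem_Din (f : ZMod 5 → Fin n) (i j : ZMod 5) : s(f i, f j) ∈ Din f := by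
  intro x hx
  rw [Sym2.mem_iff] at hx
  rcases hx with rfl | rfl
  · exact ⟨i, rfl⟩
  · exact ⟨j, rfl⟩

theorem dep_inner (f : ZMod 5 → Fin n) : DepOn (inner f) (Din f) := by
  intro G G' h
  unfold inner
  refine Finset.prod_congr rfl fun i _ => ?_
  have h1 := h s(f i, f (i + 1)) (mk_mem_Din f _ _)
  have h2 := h s(f i, f (i + 2)) (mk_mem_Din f _ _)
  simp only [ed, h1, h2]

theorem dep_gd (f : ZMod 5 → Fin n) (x : Fin n) : DepOn (gd f x) (Dx f x) := by
  intro G G' h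
  have h1 : ∀ i, G.Adj x (f i) ↔ G'.Adj x (f i) := fun i => by
    simpa using h s(x, f i) ⟨i, rfl⟩
  unfold gd
  simp only [h1]

theorem dep_ed (e : Sym2 (Fin n)) : DepOn (ed e) {e} := by
  intro G G' h
  have h1 := h e rfl
  simp only [ed, h1]

theorem prodE (hb : ST_P0b) (p : ℝ) (J : Type) [Fintype J] (F : J → ZMod 5 → Fin n)
    (hd : ∀ a b, a ≠ b → ∀ i j, F a i ≠ F b j) (S : Finset (Fin n))
    (hS : ∀ x ∈ S, ∀ a i, F a i ≠ x) :
    Ex n p (fun G => ∏ a : J, (inner (F a) G * ∏ x ∈ S, gd (F a) x G)) =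
      ∏ a : J, (Ex n p (inner (F a)) * ∏ x ∈ S, Ex n p (gd (F a) x)) := by
  let φ : J × Option (Fin n) → SimpleGraph (Fin n) → ℝ := fun q => match q.2 with
    | none => inner (F q.1)
    | some x => gd (F q.1) x
  let D : J × Option (Fin n) → Set (Sym2 (Fin n)) := fun q => match q.2 with
    | none => Din (F q.1)
    | some x => Dx (F q.1) x
  have key := hb n p (J × Option (Fin n)) (Finset.univ ×ˢ Finset.insertNone S) φ D ?_ ?_
  · simp only [Finset.prod_product, Finset.prod_insertNone] at key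
    exact key
  · rintro ⟨a, _ | x⟩ _
    · exact dep_inner (F a)
    · exact dep_gd (F a) x
  · rintro ⟨a, x⟩ hx ⟨b, y⟩ hy hne
    rw [Finset.mem_product, Finset.mem_insertNone] at hx hy
    rw [Set.disjoint_left]
    intro e he he'
    rcases x with _ | x <;> rcases y with _ | y
    · have hab : a ≠ b := fun h => hne (by rw [h])
      change e ∈ Din (F a) at he
      change e ∈ Din (F b) at he'
      induction e using Sym2.ind with
      | _ u v =>
        obtain ⟨i, hi⟩ := he u (Sym2.mem_mk_left _ _)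
        obtain ⟨j, hj⟩ := he' u (Sym2.mem_mk_left _ _)
        exact hd a b hab i j (hi.trans hj.symm)
    · change e ∈ Din (F a) at he
      obtain ⟨j, rfl⟩ : e ∈ Dx (F b) y := he'
      obtain ⟨i, hi⟩ := he y (Sym2.mem_mk_left _ _)
      exact hS y (hy.2 y rfl) a i hi
    · change e ∈ Din (F b) at he'
      obtain ⟨j, rfl⟩ : e ∈ Dx (F a) x := he
      obtain ⟨i, hi⟩ := he' x (Sym2.mem_mk_left _ _)
      exact hS x (hx.2 x rfl) b i hi
    · obtain ⟨i, rfl⟩ : e ∈ Dx (F a) x := he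
      obtain ⟨j, hj⟩ : s(x, F a i) ∈ Dx (F b) y := he'
      rw [Sym2.eq_iff] at hj
      rcases hj with ⟨h1, h2⟩ | ⟨h1, h2⟩
      · subst h1
        by_cases hab : a = b
        · exact hne (by rw [hab])
        · exact hd a b hab i j h2
      · exact hS x (hx.2 x rfl) b j h1.symm

theorem Ex_prod_ed (hb : ST_P0b) (hc : ST_P0c) (p : ℝ) (S : Finset (Sym2 (Fin n)))
    (hS : ∀ e ∈ S, ¬ e.IsDiag) : Ex n p (fun G => ∏ e ∈ S, ed e G) = p ^ S.card := by
  rw [hb n p (Sym2 (Fin n)) S ed (fun e => {e}) (fun e _ => dep_ed e)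
    (fun a _ b _ hab => by simpa using hab),
    Finset.prod_congr rfl (fun e he => show Ex n p (ed e) = p from hc n p e (hS e he))]
  simp

theorem Ex_one_sub_ed (ha : ST_P0a) (hc : ST_P0c) (p : ℝ) (e : Sym2 (Fin n))
    (he : ¬ e.IsDiag) : Ex n p (fun G => 1 - ed e G) = 1 - p := by
  rw [Ex_sub, ha n p]
  congr 1
  exact hc n p e he

theorem pair5 : ∀ (i j : ZMod 5) (b c : Bool), (i, b) ≠ (j, c) →
    ¬ ((i = j ∧ i + (if b then 2 else 1) = j + (if c then 2 else 1)) ∨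
      (i = j + (if c then 2 else 1) ∧ i + (if b then 2 else 1) = j)) := by
  decide

theorem succ5 : ∀ (i : ZMod 5), i ≠ i + 1 ∧ i ≠ i + 2 := by decide

theorem Ex_inner (ha : ST_P0a) (hb : ST_P0b) (hc : ST_P0c) (p : ℝ) {f : ZMod 5 → Fin n}
    (hf : Function.Injective f) : Ex n p (inner f) = p ^ 5 * (1 - p) ^ 5 := by
  let φ : ZMod 5 × Bool → SimpleGraph (Fin n) → ℝ := fun q =>
    if q.2 then (fun G => 1 - ed s(f q.1, f (q.1 + 2)) G) else ed s(f q.1, f (q.1 + 1))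
  let D : ZMod 5 × Bool → Set (Sym2 (Fin n)) := fun q =>
    {s(f q.1, f (q.1 + if q.2 then 2 else 1))}
  have key := hb n p (ZMod 5 × Bool) Finset.univ φ D ?_ ?_
  · have e1 : (fun G => ∏ a : ZMod 5 × Bool, φ a G) = inner f := by
      funext G
      rw [Fintype.prod_prod_type]
      unfold inner
      refine Finset.prod_congr rfl fun i _ => ?_
      rw [Fintype.prod_bool]
      simp only [φ, if_true, Bool.false_eq_true, if_false]
      ring
    rw [e1] at key
    rw [key, Fintype.prod_prod_type]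
    have e2 : ∀ i : ZMod 5, ∏ b : Bool, Ex n p (φ (i, b)) = p * (1 - p) := by
      intro i
      rw [Fintype.prod_bool]
      simp only [φ, if_true, Bool.false_eq_true, if_false]
      rw [Ex_one_sub_ed ha hc, show Ex n p (ed s(f i, f (i + 1))) = p from hc n p _ ?_]
      · ring
      · rw [Sym2.mk_isDiag_iff]
        exact fun h => (succ5 i).1 (hf h)
      · rw [Sym2.mk_isDiag_iff]
        exact fun h => (succ5 i).2 (hf h)
    rw [Finset.prod_congr rfl fun i _ => e2 i, Finset.prod_const, Finset.card_univ,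
      ZMod.card, mul_pow]
  · rintro ⟨i, b⟩ _ G G' h
    have h1 := h _ rfl
    cases b
    · simp only [φ, Bool.false_eq_true, if_false] at h1 ⊢
      simp only [ed, h1]
    · simp only [φ, if_true] at h1 ⊢
      simp only [ed, h1]
  · rintro ⟨i, b⟩ _ ⟨j, c⟩ _ hne
    rw [Set.disjoint_singleton]
    intro h
    rw [Sym2.eq_iff] at h
    refine pair5 i j b c hne ?_
    rcases h with ⟨h1, h2⟩ | ⟨h1, h2⟩
    · exact Or.inl ⟨hf h1, hf h2⟩
    · exact Or.inr ⟨hf h1, hf h2⟩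

theorem Ex_gd_ge (ha : ST_P0a) (hb : ST_P0b) (hc : ST_P0c) {p : ℝ} (h0 : 0 ≤ p) (h1 : p ≤ 1)
    {f : ZMod 5 → Fin n} (hf : Function.Injective f) {x : Fin n} (hx : ∀ i, f i ≠ x) :
    1 - 5 * p ^ 2 ≤ Ex n p (gd f x) := by
  have hle : ∀ G : SimpleGraph (Fin n),
      1 - ∑ i : ZMod 5, ∏ e ∈ ({s(x, f i), s(x, f (i + 2))} : Finset (Sym2 (Fin n))), ed e G
        ≤ gd f x G := by
    intro G
    have hnn : ∀ i : ZMod 5,
        0 ≤ ∏ e ∈ ({s(x, f i), s(x, f (i + 2))} : Finset (Sym2 (Fin n))), ed e G :=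
      fun i => Finset.prod_nonneg fun e _ => ed_nonneg e G
    unfold gd
    split_ifs with h
    · obtain ⟨i, hi1, hi2⟩ := h
      have : ∏ e ∈ ({s(x, f i), s(x, f (i + 2))} : Finset (Sym2 (Fin n))), ed e G = 1 := by
        apply Finset.prod_eq_one
        intro e he
        simp only [Finset.mem_insert, Finset.mem_singleton] at he
        rcases he with rfl | rfl
        · simp [ed, hi1]
        · simp [ed, hi2]
      have h2 := Finset.single_le_sum (fun i _ => hnn i) (Finset.mem_univ i)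
      linarith
    · have := Finset.sum_nonneg fun i (_ : i ∈ Finset.univ) => hnn i
      linarith
  refine le_trans (le_of_eq ?_) (Ex_mono h0 h1 hle)
  rw [Ex_sub, ha n p, Ex_sum]
  have e2 : ∀ i : ZMod 5, Ex n p (fun G =>
      ∏ e ∈ ({s(x, f i), s(x, f (i + 2))} : Finset (Sym2 (Fin n))), ed e G) = p ^ 2 := by
    intro i
    rw [Ex_prod_ed hb hc, Finset.card_pair]
    · intro h
      rw [Sym2.eq_iff] at h
      rcases h with ⟨_, h⟩ | ⟨h, _⟩
      · exact (succ5 i).2 (hf h)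
      · exact hx _ h.symm
    · intro e he
      simp only [Finset.mem_insert, Finset.mem_singleton] at he
      rcases he with rfl | rfl
      · rw [Sym2.mk_isDiag_iff]; exact fun h => hx _ h.symm
      · rw [Sym2.mk_isDiag_iff]; exact fun h => hx _ h.symm
  rw [Finset.sum_congr rfl fun i _ => e2 i, Finset.sum_const, Finset.card_univ, ZMod.card]
  norm_num

theorem Ex_gd_nonneg {p : ℝ} (h0 : 0 ≤ p) (h1 : p ≤ 1) (f : ZMod 5 → Fin n) (x : Fin n) :
    0 ≤ Ex n p (gd f x) := Ex_nonneg h0 h1 fun G => gd_nonneg f x G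

theorem Ex_In (hb : ST_P0b) (p : ℝ) (f : ZMod 5 → Fin n) :
    Ex n p (In f) = Ex n p (inner f) * ∏ x ∈ (im f)ᶜ, Ex n p (gd f x) := by
  have := prodE hb p Unit (fun _ => f) (fun a b h => absurd rfl h) (im f)ᶜ (by
    intro x hx _ i hi
    rw [Finset.mem_compl, mem_im] at hx
    exact hx ⟨i, hi⟩)
  simp only [Finset.univ_unique, Finset.prod_singleton] at this
  exact this

theorem card_im_le (f : ZMod 5 → Fin n) : (im f).card ≤ 5 := by
  refine (Finset.card_image_le).trans ?_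
  rw [Finset.card_univ, ZMod.card]

theorem prod_gam_le (ha : ST_P0a) (hb : ST_P0b) (hc : ST_P0c) {p : ℝ} (h0 : 0 ≤ p) (h1 : p ≤ 1)
    (hp : 5 * p ^ 2 ≤ 1) {f : ZMod 5 → Fin n} (hf : Function.Injective f)
    (S T : Finset (Fin n)) (k : ℕ) (hST : S ⊆ T) (hT : T ⊆ (im f)ᶜ) (hk : (T \ S).card ≤ k) :
    (∏ x ∈ S, Ex n p (gd f x)) * (1 - 5 * p ^ 2) ^ k ≤ ∏ x ∈ T, Ex n p (gd f x) := by
  rw [← Finset.prod_sdiff hST, mul_comm]
  refine mul_le_mul_of_nonneg_right ?_ (Finset.prod_nonneg fun x _ => Ex_gd_nonneg h0 h1 f x)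
  have hq : 0 ≤ 1 - 5 * p ^ 2 := by linarith
  have hq1 : 1 - 5 * p ^ 2 ≤ 1 := by nlinarith [sq_nonneg p]
  calc (1 - 5 * p ^ 2) ^ k ≤ (1 - 5 * p ^ 2) ^ (T \ S).card := pow_le_pow_of_le_one hq hq1 hk
    _ = ∏ _x ∈ T \ S, (1 - 5 * p ^ 2) := by rw [Finset.prod_const]
    _ ≤ ∏ x ∈ T \ S, Ex n p (gd f x) := by
        refine Finset.prod_le_prod (fun _ _ => hq) fun x hx => ?_
        refine Ex_gd_ge ha hb hc h0 h1 hf fun i hi => ?_
        have := hT (Finset.sdiff_subset hx)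
        rw [Finset.mem_compl, mem_im] at this
        exact this ⟨i, hi⟩

theorem Ex_In_ge (ha : ST_P0a) (hb : ST_P0b) (hc : ST_P0c) {p : ℝ} (h0 : 0 ≤ p) (h1 : p ≤ 1)
    (hp : 5 * p ^ 2 ≤ 1) {f : ZMod 5 → Fin n} (hf : Function.Injective f) :
    p ^ 5 * (1 - p) ^ 5 * (1 - 5 * p ^ 2) ^ n ≤ Ex n p (In f) := by
  rw [Ex_In hb, Ex_inner ha hb hc p hf]
  have h2 : 0 ≤ 1 - p := by linarith
  refine mul_le_mul_of_nonneg_left ?_ (mul_nonneg (pow_nonneg h0 5) (pow_nonneg h2 5))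
  have := prod_gam_le ha hb hc h0 h1 hp hf ∅ (im f)ᶜ n (by simp) subset_rfl (by
    refine (Finset.card_le_univ _).trans ?_
    simp)
  simpa using this

theorem Ex_disj (ha : ST_P0a) (hb : ST_P0b) (hc : ST_P0c) {p : ℝ} (h0 : 0 ≤ p) (h1 : p ≤ 1)
    (hp : 5 * p ^ 2 ≤ 1) {f g : ZMod 5 → Fin n} (hf : Function.Injective f)
    (hg : Function.Injective g) (hfg : ∀ i j, f i ≠ g j) :
    Ex n p (fun G => In f G * In g G) * (1 - 5 * p ^ 2) ^ 10 ≤ Ex n p (In f) * Ex n p (In g) := by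
  set S : Finset (Fin n) := (im f ∪ im g)ᶜ with hS
  have hSf : S ⊆ (im f)ᶜ := Finset.compl_subset_compl.2 Finset.subset_union_left
  have hSg : S ⊆ (im g)ᶜ := Finset.compl_subset_compl.2 Finset.subset_union_right
  have hq : 0 ≤ 1 - 5 * p ^ 2 := by linarith
  let F : Bool → ZMod 5 → Fin n := fun b => if b then f else g
  have hprod := prodE hb p Bool F (by
    intro a b hab i j
    cases a <;> cases b
    · exact absurd rfl hab
    · exact (hfg j i).symm
    · exact hfg i j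
    · exact absurd rfl hab) S (by
    intro x hx a i hi
    rw [hS, Finset.mem_compl, Finset.mem_union, mem_im, mem_im] at hx
    cases a
    · exact hx (Or.inr ⟨i, hi⟩)
    · exact hx (Or.inl ⟨i, hi⟩))
  simp only [Fintype.prod_bool, F, if_true, Bool.false_eq_true, if_false] at hprod
  have hsub : ∀ (h : ZMod 5 → Fin n) (G : SimpleGraph (Fin n)), S ⊆ (im h)ᶜ →
      In h G ≤ inner h G * ∏ x ∈ S, gd h x G := by
    intro h G hs
    unfold In
    refine mul_le_mul_of_nonneg_left ?_ (inner_nonneg h G)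
    rw [← Finset.prod_sdiff hs]
    exact mul_le_of_le_one_left (prod_gd_nonneg h S G) (prod_gd_le h _ G)
  have hle : Ex n p (fun G => In f G * In g G) ≤
      Ex n p (inner f) * (∏ x ∈ S, Ex n p (gd f x)) *
        (Ex n p (inner g) * ∏ x ∈ S, Ex n p (gd g x)) := by
    rw [← hprod]
    refine Ex_mono h0 h1 fun G => ?_
    exact mul_le_mul (hsub f G hSf) (hsub g G hSg) (In_nonneg g G)
      (mul_nonneg (inner_nonneg f G) (prod_gd_nonneg f S G))
  have hcf : ((im f)ᶜ \ S).card ≤ 5 := by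
    refine (Finset.card_le_card ?_).trans (card_im_le g)
    intro x hx
    simp only [hS, Finset.mem_sdiff, Finset.mem_compl, Finset.mem_union, not_not] at hx
    tauto
  have hcg : ((im g)ᶜ \ S).card ≤ 5 := by
    refine (Finset.card_le_card ?_).trans (card_im_le f)
    intro x hx
    simp only [hS, Finset.mem_sdiff, Finset.mem_compl, Finset.mem_union, not_not] at hx
    tauto
  have hF := prod_gam_le ha hb hc h0 h1 hp hf S _ 5 hSf subset_rfl hcf
  have hG := prod_gam_le ha hb hc h0 h1 hp hg S _ 5 hSg subset_rfl hcg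
  rw [Ex_In hb, Ex_In hb]
  have hif : 0 ≤ Ex n p (inner f) := Ex_nonneg h0 h1 fun G => inner_nonneg f G
  have hig : 0 ≤ Ex n p (inner g) := Ex_nonneg h0 h1 fun G => inner_nonneg g G
  have hpf : 0 ≤ ∏ x ∈ S, Ex n p (gd f x) := Finset.prod_nonneg fun x _ => Ex_gd_nonneg h0 h1 f x
  have hpg : 0 ≤ ∏ x ∈ S, Ex n p (gd g x) := Finset.prod_nonneg fun x _ => Ex_gd_nonneg h0 h1 g x
  calc Ex n p (fun G => In f G * In g G) * (1 - 5 * p ^ 2) ^ 10
      ≤ Ex n p (inner f) * (∏ x ∈ S, Ex n p (gd f x)) *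
        (Ex n p (inner g) * ∏ x ∈ S, Ex n p (gd g x)) * (1 - 5 * p ^ 2) ^ 10 :=
        mul_le_mul_of_nonneg_right hle (pow_nonneg hq 10)
    _ = (Ex n p (inner f) * ((∏ x ∈ S, Ex n p (gd f x)) * (1 - 5 * p ^ 2) ^ 5)) *
        (Ex n p (inner g) * ((∏ x ∈ S, Ex n p (gd g x)) * (1 - 5 * p ^ 2) ^ 5)) := by ring
    _ ≤ _ := by
        refine mul_le_mul (mul_le_mul_of_nonneg_left hF hif) (mul_le_mul_of_nonneg_left hG hig)
          (mul_nonneg hig (mul_nonneg hpg (pow_nonneg hq 5)))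
          (mul_nonneg hif (Finset.prod_nonneg fun x _ => Ex_gd_nonneg h0 h1 f x))

/-! ### Intersecting pairs -/

/-- the edges of the cycle -/
noncomputable def Ef (f : ZMod 5 → Fin n) : Finset (Sym2 (Fin n)) :=
  Finset.univ.image fun i => s(f i, f (i + 1))

theorem edge5 : ∀ (i j : ZMod 5), ((i = j ∧ i + 1 = j + 1) ∨ (i = j + 1 ∧ i + 1 = j)) → i = j := by
  decide

theorem edge_inj {f : ZMod 5 → Fin n} (hf : Function.Injective f) :
    Function.Injective fun i : ZMod 5 => s(f i, f (i + 1)) := by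
  intro i j h
  simp only [Sym2.eq_iff] at h
  refine edge5 i j ?_
  rcases h with ⟨h1, h2⟩ | ⟨h1, h2⟩
  · exact Or.inl ⟨hf h1, hf h2⟩
  · exact Or.inr ⟨hf h1, hf h2⟩

theorem card_Ef {f : ZMod 5 → Fin n} (hf : Function.Injective f) : (Ef f).card = 5 := by
  unfold Ef
  rw [Finset.card_image_of_injective _ (edge_inj hf), Finset.card_univ, ZMod.card]

theorem Ex_inter (hb : ST_P0b) (hc : ST_P0c) {p : ℝ} (h0 : 0 ≤ p) (h1 : p ≤ 1)
    {f g : ZMod 5 → Fin n} (hf : Function.Injective f) (hg : Function.Injective g) :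
    Ex n p (fun G => In f G * In g G) ≤ p ^ (Ef f ∪ Ef g).card := by
  rw [← Ex_prod_ed hb hc p (Ef f ∪ Ef g)]
  · refine Ex_mono h0 h1 fun G => ?_
    have hz : ∀ h : ZMod 5 → Fin n, ∀ e ∈ Ef h, e ∉ G.edgeSet → In h G = 0 := by
      intro h e he hn
      simp only [Ef, Finset.mem_image, Finset.mem_univ, true_and] at he
      obtain ⟨i, rfl⟩ := he
      unfold In inner
      rw [Finset.prod_eq_zero (Finset.mem_univ i), zero_mul]
      unfold ed
      rw [if_neg hn, zero_mul]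
    by_cases h : ∀ e ∈ Ef f ∪ Ef g, e ∈ G.edgeSet
    · rw [Finset.prod_eq_one (fun e he => by unfold ed; rw [if_pos (h e he)])]
      have i1 : ∀ h : ZMod 5 → Fin n, In h G ≤ 1 := fun h =>
        (In_le_inner h G).trans (inner_le_one h G)
      exact mul_le_one₀ (i1 f) (In_nonneg g G) (i1 g)
    · push Not at h
      obtain ⟨e, he, hn⟩ := h
      have : In f G * In g G = 0 := by
        rcases Finset.mem_union.1 he with he | he
        · rw [hz f e he hn, zero_mul]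
        · rw [hz g e he hn, mul_zero]
      rw [this]
      exact Finset.prod_nonneg fun e _ => ed_nonneg e G
  · intro e he
    have : ∀ h : ZMod 5 → Fin n, Function.Injective h → e ∈ Ef h → ¬ e.IsDiag := by
      intro h hh he
      simp only [Ef, Finset.mem_image, Finset.mem_univ, true_and] at he
      obtain ⟨i, rfl⟩ := he
      rw [Sym2.mk_isDiag_iff]
      exact fun h' => (succ5 i).1 (hh h')
    rcases Finset.mem_union.1 he with he | he
    · exact this f hf he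
    · exact this g hg he

/-- positions of `g` inside the image of `f` -/
noncomputable def Tf (f g : ZMod 5 → Fin n) : Finset (ZMod 5) :=
  Finset.univ.filter fun i => g i ∈ im f

theorem cycle5 : ∀ T : Finset (ZMod 5), T.Nonempty → T ≠ Finset.univ →
    6 ≤ (Finset.univ.filter fun i => ¬ (i ∈ T ∧ i + 1 ∈ T)).card + T.card := by
  decide

theorem card_union_ge {f g : ZMod 5 → Fin n} (hf : Function.Injective f)
    (hg : Function.Injective g) (h1 : (Tf f g).Nonempty) (h2 : Tf f g ≠ Finset.univ) :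
    11 - (Tf f g).card ≤ (Ef f ∪ Ef g).card := by
  set U : Finset (ZMod 5) := Finset.univ.filter fun i => ¬ (i ∈ Tf f g ∧ i + 1 ∈ Tf f g) with hU
  have hdis : Disjoint (Ef f) (U.image fun i => s(g i, g (i + 1))) := by
    rw [Finset.disjoint_left]
    intro e he he'
    simp only [Ef, Finset.mem_image, Finset.mem_univ, true_and] at he he'
    obtain ⟨i, rfl⟩ := he
    obtain ⟨j, hj, hj'⟩ := he'
    rw [hU, Finset.mem_filter] at hj
    apply hj.2
    rw [Sym2.eq_iff] at hj'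
    simp only [Tf, Finset.mem_filter, Finset.mem_univ, true_and, mem_im]
    rcases hj' with ⟨a, b⟩ | ⟨a, b⟩
    · exact ⟨⟨i, a.symm⟩, ⟨i + 1, b.symm⟩⟩
    · exact ⟨⟨i + 1, a.symm⟩, ⟨i, b.symm⟩⟩
  have hsub : Ef f ∪ (U.image fun i => s(g i, g (i + 1))) ⊆ Ef f ∪ Ef g := by
    refine Finset.union_subset_union_right ?_
    exact Finset.image_subset_image (Finset.subset_univ _)
  have hcard := Finset.card_le_card hsub
  rw [Finset.card_union_of_disjoint hdis, card_Ef hf,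
    Finset.card_image_of_injective _ (edge_inj hg)] at hcard
  have := cycle5 _ h1 h2
  have hU' : U.card = (Finset.univ.filter fun i => ¬ (i ∈ Tf f g ∧ i + 1 ∈ Tf f g)).card := rfl
  have hU2 : (Finset.univ.filter fun i => ¬ (i ∈ Tf f g ∧ i + 1 ∈ Tf f g)).card =
    @Finset.card (ZMod 5) (@Finset.filter (ZMod 5) (fun i => ¬ (i ∈ Tf f g ∧ i + 1 ∈ Tf f g))
      (fun i => instDecidableNot) Finset.univ) := by
    congr
  omega

/-! ### The second moment -/

/-- injective maps -/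
noncomputable def Inj (n : ℕ) : Finset (ZMod 5 → Fin n) :=
  Finset.univ.filter Function.Injective

theorem mem_Inj {f : ZMod 5 → Fin n} : f ∈ Inj n ↔ Function.Injective f := by
  simp [Inj]

theorem card_Inj (n : ℕ) : (Inj n).card = n.descFactorial 5 := by
  have h1 : (Inj n).card = Fintype.card {f : ZMod 5 → Fin n // Function.Injective f} := by
    rw [Fintype.card_subtype]
    rfl
  rw [h1, Fintype.card_congr (Equiv.subtypeInjectiveEquivEmbedding (ZMod 5) (Fin n)),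
    Fintype.card_embedding_eq, ZMod.card, Fintype.card_fin]

theorem card_Inj_ge (h8 : 8 ≤ n) : ((n : ℝ) / 2) ^ 5 ≤ (Inj n).card := by
  rw [card_Inj]
  have h1 := Nat.pow_sub_le_descFactorial n 5
  have h2 : ((n + 1 - 5 : ℕ) : ℝ) ^ 5 ≤ (n.descFactorial 5 : ℕ) := by exact_mod_cast h1
  refine le_trans (pow_le_pow_left₀ (by positivity) ?_ 5) h2
  have h3 : (n + 1 - 5 : ℕ) + 4 = n := by omega
  have h4 : ((n + 1 - 5 : ℕ) : ℝ) + 4 = n := by exact_mod_cast h3
  have h5 : (8 : ℝ) ≤ n := by exact_mod_cast h8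
  linarith

theorem card_Inj_le (n : ℕ) : ((Inj n).card : ℝ) ≤ (n : ℝ) ^ 5 := by
  have : (Inj n).card ≤ n ^ 5 := by
    refine (Finset.card_le_univ _).trans ?_
    rw [Fintype.card_fun, ZMod.card, Fintype.card_fin]
  exact_mod_cast this

theorem card_T (f : ZMod 5 → Fin n) (T : Finset (ZMod 5)) :
    (Finset.univ.filter fun g : ZMod 5 → Fin n => Tf f g = T).card ≤
      5 ^ T.card * n ^ (5 - T.card) := by
  have hsub : (Finset.univ.filter fun g : ZMod 5 → Fin n => Tf f g = T) ⊆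
      Fintype.piFinset (fun i => if i ∈ T then im f else Finset.univ) := by
    intro g hg
    rw [Finset.mem_filter] at hg
    rw [Fintype.mem_piFinset]
    intro i
    split_ifs with h
    · rw [← hg.2] at h
      simpa [Tf] using h
    · exact Finset.mem_univ _
  refine (Finset.card_le_card hsub).trans ?_
  rw [Fintype.card_piFinset]
  have h1 : ∀ i : ZMod 5, (if i ∈ T then im f else (Finset.univ : Finset (Fin n))).card ≤
      if i ∈ T then 5 else n := by
    intro i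
    split_ifs
    · exact card_im_le f
    · simp
  refine (Finset.prod_le_prod' fun i _ => h1 i).trans ?_
  rw [Finset.prod_ite, Finset.prod_const, Finset.prod_const]
  have h2 : (Finset.univ.filter fun i => i ∈ T) = T := by ext; simp
  have h3 : (Finset.univ.filter fun i => i ∉ T) = Tᶜ := by ext; simp
  rw [h2, h3, Finset.card_compl, ZMod.card]

/-- weight of an overlap pattern -/
noncomputable def W (p : ℝ) (T : Finset (ZMod 5)) : ℝ :=
  if T = ∅ then 0 else if T = Finset.univ then p ^ 5 else p ^ (11 - T.card)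

theorem W_nonneg {p : ℝ} (h0 : 0 ≤ p) (T : Finset (ZMod 5)) : 0 ≤ W p T := by
  unfold W; split_ifs <;> positivity

theorem W_bound {p : ℝ} (h0 : 0 ≤ p) (hn : 0 < n) (hnp : 1 ≤ n * p) (T : Finset (ZMod 5)) :
    (n : ℝ) ^ 5 * ((5 : ℝ) ^ T.card * (n : ℝ) ^ (5 - T.card) * W p T) ≤
      5 ^ 5 * ((n * p) ^ 10 / n + (n * p) ^ 5) := by
  have hn' : (0 : ℝ) < n := by exact_mod_cast hn
  unfold W
  split_ifs with h1 h2
  · rw [mul_zero, mul_zero]; positivity
  · subst h2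
    rw [Finset.card_univ, ZMod.card]
    have : (0 : ℝ) ≤ (n * p) ^ 10 / n := by positivity
    have e : (n : ℝ) ^ 5 * (5 ^ 5 * (n : ℝ) ^ (5 - 5) * p ^ 5) = 5 ^ 5 * (n * p) ^ 5 := by
      norm_num
      ring
    rw [e]
    nlinarith
  · have ht1 : 1 ≤ T.card := Finset.card_pos.2 (Finset.nonempty_iff_ne_empty.2 h1)
    have ht2 : T.card < 5 := by
      have := Finset.card_lt_univ_of_notMem (s := T) (x := ?_) ?_
      · rwa [ZMod.card] at this
      · exact (Classical.choose (by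
          by_contra hcon
          push Not at hcon
          exact h2 (Finset.eq_univ_iff_forall.2 hcon) : ∃ x, x ∉ T))
      · exact Classical.choose_spec (_ : ∃ x, x ∉ T)
    obtain ⟨t, ht⟩ : ∃ t, T.card = t := ⟨_, rfl⟩
    rw [ht] at ht1 ht2 ⊢
    have h5 : (5 : ℝ) ^ t ≤ 5 ^ 5 := pow_le_pow_right₀ (by norm_num) ht2.le
    have hpow : (n : ℝ) ^ 5 * (n : ℝ) ^ (5 - t) * p ^ (11 - t) ≤ (n * p) ^ 10 / n := by
      have e1 : (n * p) ^ 10 / n =
          ((n : ℝ) ^ 5 * (n : ℝ) ^ (5 - t) * p ^ (11 - t)) * (n * p) ^ (t - 1) := by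
        rw [div_eq_iff hn'.ne', mul_pow, mul_pow]
        have a1 : (n : ℝ) ^ 10 = (n : ℝ) ^ 5 * (n : ℝ) ^ (5 - t) * (n : ℝ) ^ (t - 1) * n := by
          rw [← pow_add, ← pow_add, ← pow_succ]
          congr 1
          omega
        have a2 : p ^ 10 = p ^ (11 - t) * p ^ (t - 1) := by
          rw [← pow_add]
          congr 1
          omega
        rw [a1, a2]
        ring
      rw [e1]
      exact le_mul_of_one_le_right (by positivity) (one_le_pow₀ hnp)
    have h6 : (0 : ℝ) ≤ (n : ℝ) ^ 5 * (n : ℝ) ^ (5 - t) * p ^ (11 - t) := by positivity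
    have h7 : (0 : ℝ) ≤ (n * p) ^ 5 := by positivity
    calc (n : ℝ) ^ 5 * ((5 : ℝ) ^ t * (n : ℝ) ^ (5 - t) * p ^ (11 - t))
        = 5 ^ t * ((n : ℝ) ^ 5 * (n : ℝ) ^ (5 - t) * p ^ (11 - t)) := by ring
      _ ≤ 5 ^ 5 * ((n * p) ^ 10 / n) := mul_le_mul h5 hpow h6 (by positivity)
      _ ≤ _ := by nlinarith

theorem sum_W {p : ℝ} (h0 : 0 ≤ p) (hn : 0 < n) (hnp : 1 ≤ n * p) :
    ∑ f ∈ Inj n, ∑ g : ZMod 5 → Fin n, W p (Tf f g) ≤
      10 ^ 5 * ((n * p) ^ 10 / n + (n * p) ^ 5) := by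
  have hn' : (0 : ℝ) < n := by exact_mod_cast hn
  have h1 : ∀ f : ZMod 5 → Fin n, ∑ g : ZMod 5 → Fin n, W p (Tf f g) ≤
      ∑ T : Finset (ZMod 5), (5 : ℝ) ^ T.card * (n : ℝ) ^ (5 - T.card) * W p T := by
    intro f
    rw [← Finset.sum_fiberwise (s := Finset.univ) (g := fun g : ZMod 5 → Fin n => Tf f g)]
    refine Finset.sum_le_sum fun T _ => ?_
    rw [Finset.sum_congr rfl (g := fun _ => W p T) (fun g hg => by
      rw [(Finset.mem_filter.1 hg).2]), Finset.sum_const, nsmul_eq_mul]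
    refine mul_le_mul_of_nonneg_right ?_ (W_nonneg h0 T)
    exact_mod_cast card_T f T
  have hB : 0 ≤ ∑ T : Finset (ZMod 5), (5 : ℝ) ^ T.card * (n : ℝ) ^ (5 - T.card) * W p T :=
    Finset.sum_nonneg fun T _ => mul_nonneg (by positivity) (W_nonneg h0 T)
  calc ∑ f ∈ Inj n, ∑ g : ZMod 5 → Fin n, W p (Tf f g)
      ≤ ∑ _f ∈ Inj n, ∑ T : Finset (ZMod 5), (5 : ℝ) ^ T.card * (n : ℝ) ^ (5 - T.card) * W p T :=
        Finset.sum_le_sum fun f _ => h1 f
    _ = (Inj n).card * ∑ T : Finset (ZMod 5),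
          (5 : ℝ) ^ T.card * (n : ℝ) ^ (5 - T.card) * W p T := by
        rw [Finset.sum_const, nsmul_eq_mul]
    _ ≤ (n : ℝ) ^ 5 * ∑ T : Finset (ZMod 5),
          (5 : ℝ) ^ T.card * (n : ℝ) ^ (5 - T.card) * W p T :=
        mul_le_mul_of_nonneg_right (card_Inj_le n) hB
    _ = ∑ T : Finset (ZMod 5), (n : ℝ) ^ 5 *
          ((5 : ℝ) ^ T.card * (n : ℝ) ^ (5 - T.card) * W p T) := by rw [Finset.mul_sum]
    _ ≤ ∑ _T : Finset (ZMod 5), 5 ^ 5 * ((n * p) ^ 10 / n + (n * p) ^ 5) :=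
        Finset.sum_le_sum fun T _ => W_bound h0 hn hnp T
    _ = _ := by
        rw [Finset.sum_const, Finset.card_univ, Fintype.card_finset, ZMod.card, nsmul_eq_mul]
        norm_num
        ring

theorem pair_bound (ha : ST_P0a) (hb : ST_P0b) (hc : ST_P0c) {p : ℝ} (h0 : 0 ≤ p) (h1 : p ≤ 1)
    (hp : 5 * p ^ 2 < 1) {f g : ZMod 5 → Fin n} (hf : Function.Injective f)
    (hg : Function.Injective g) :
    Ex n p (fun G => In f G * In g G) ≤
      ((1 - 5 * p ^ 2) ^ 10)⁻¹ * (Ex n p (In f) * Ex n p (In g)) + W p (Tf f g) := by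
  have hq : 0 < 1 - 5 * p ^ 2 := by linarith
  have hq10 : 0 < (1 - 5 * p ^ 2) ^ 10 := pow_pos hq 10
  by_cases hT : Tf f g = ∅
  · have hfg : ∀ i j, f i ≠ g j := by
      intro i j hij
      have : j ∈ Tf f g := by
        simp only [Tf, Finset.mem_filter, Finset.mem_univ, true_and, mem_im]
        exact ⟨i, hij⟩
      rw [hT] at this
      simp at this
    have := Ex_disj ha hb hc h0 h1 hp.le hf hg hfg
    unfold W
    rw [if_pos hT, add_zero, inv_mul_eq_div, le_div_iff₀ hq10]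
    exact this
  · have hnn : 0 ≤ ((1 - 5 * p ^ 2) ^ 10)⁻¹ * (Ex n p (In f) * Ex n p (In g)) :=
      mul_nonneg (inv_nonneg.2 hq10.le) (mul_nonneg (Ex_nonneg h0 h1 fun G => In_nonneg f G)
        (Ex_nonneg h0 h1 fun G => In_nonneg g G))
    have hle := Ex_inter hb hc h0 h1 hf hg
    have hW : p ^ (Ef f ∪ Ef g).card ≤ W p (Tf f g) := by
      unfold W
      rw [if_neg hT]
      split_ifs with hU
      · refine pow_le_pow_of_le_one h0 h1 ?_
        rw [← card_Ef hf]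
        exact Finset.card_le_card Finset.subset_union_left
      · refine pow_le_pow_of_le_one h0 h1 ?_
        exact card_union_ge hf hg (Finset.nonempty_iff_ne_empty.2 hT) hU
    linarith

/-- the number of good cycles -/
noncomputable def Xn (n : ℕ) (G : SimpleGraph (Fin n)) : ℝ := ∑ f ∈ Inj n, In f G

/-- its mean -/
noncomputable def mu (n : ℕ) (p : ℝ) : ℝ := ∑ f ∈ Inj n, Ex n p (In f)

theorem second_moment (ha : ST_P0a) (hb : ST_P0b) (hc : ST_P0c) {p : ℝ} (h0 : 0 ≤ p) (h1 : p ≤ 1)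
    (hp : 5 * p ^ 2 < 1) (hn : 0 < n) (hnp : 1 ≤ n * p) :
    Ex n p (fun G => Xn n G * Xn n G) ≤ ((1 - 5 * p ^ 2) ^ 10)⁻¹ * (mu n p * mu n p) +
      10 ^ 5 * ((n * p) ^ 10 / n + (n * p) ^ 5) := by
  have e1 : Ex n p (fun G => Xn n G * Xn n G) =
      ∑ f ∈ Inj n, ∑ g ∈ Inj n, Ex n p (fun G => In f G * In g G) := by
    unfold Xn
    simp_rw [Finset.sum_mul_sum]
    rw [Ex_sum]
    exact Finset.sum_congr rfl fun f _ => Ex_sum _ _ _
  rw [e1]
  calc ∑ f ∈ Inj n, ∑ g ∈ Inj n, Ex n p (fun G => In f G * In g G)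
      ≤ ∑ f ∈ Inj n, ∑ g ∈ Inj n, (((1 - 5 * p ^ 2) ^ 10)⁻¹ *
          (Ex n p (In f) * Ex n p (In g)) + W p (Tf f g)) :=
        Finset.sum_le_sum fun f hf => Finset.sum_le_sum fun g hg =>
          pair_bound ha hb hc h0 h1 hp (mem_Inj.1 hf) (mem_Inj.1 hg)
    _ = ((1 - 5 * p ^ 2) ^ 10)⁻¹ * (mu n p * mu n p) +
          ∑ f ∈ Inj n, ∑ g ∈ Inj n, W p (Tf f g) := by
        simp_rw [Finset.sum_add_distrib, ← Finset.mul_sum]
        unfold mu
        rw [← Finset.sum_mul]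
    _ ≤ _ := by
        refine add_le_add le_rfl (le_trans ?_ (sum_W h0 hn hnp))
        refine Finset.sum_le_sum fun f _ => ?_
        exact Finset.sum_le_sum_of_subset_of_nonneg (Finset.subset_univ _)
          fun g _ _ => W_nonneg h0 _

theorem mu_ge (ha : ST_P0a) (hb : ST_P0b) (hc : ST_P0c) {p : ℝ} (h0 : 0 ≤ p) (h1 : p ≤ 1)
    (hp : 5 * p ^ 2 ≤ 1) (hn : 8 ≤ n) :
    ((n : ℝ) / 2) ^ 5 * (p ^ 5 * (1 - p) ^ 5 * (1 - 5 * p ^ 2) ^ n) ≤ mu n p := by
  have hL : 0 ≤ p ^ 5 * (1 - p) ^ 5 * (1 - 5 * p ^ 2) ^ n :=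
    mul_nonneg (mul_nonneg (pow_nonneg h0 5) (pow_nonneg (by linarith) 5))
      (pow_nonneg (by linarith) n)
  calc ((n : ℝ) / 2) ^ 5 * (p ^ 5 * (1 - p) ^ 5 * (1 - 5 * p ^ 2) ^ n)
      ≤ (Inj n).card * (p ^ 5 * (1 - p) ^ 5 * (1 - 5 * p ^ 2) ^ n) :=
        mul_le_mul_of_nonneg_right (card_Inj_ge hn) hL
    _ = ∑ _f ∈ Inj n, (p ^ 5 * (1 - p) ^ 5 * (1 - 5 * p ^ 2) ^ n) := by
        rw [Finset.sum_const, nsmul_eq_mul]
    _ ≤ mu n p := Finset.sum_le_sum fun f hf =>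
        Ex_In_ge ha hb hc h0 h1 hp (mem_Inj.1 hf)

theorem chebyshev (ha : ST_P0a) (hb : ST_P0b) (hc : ST_P0c) {p : ℝ} (h0 : 0 ≤ p) (h1 : p ≤ 1)
    (hp : 5 * p ^ 2 < 1) (hn : 0 < n) (hnp : 1 ≤ n * p) :
    (mu n p * mu n p) * (1 - gnp n p {G | HasConf G}) ≤
      (((1 - 5 * p ^ 2) ^ 10)⁻¹ - 1) * (mu n p * mu n p) +
      10 ^ 5 * ((n * p) ^ 10 / n + (n * p) ^ 5) := by
  have hpt : ∀ G : SimpleGraph (Fin n),
      (mu n p * mu n p) * (1 - if G ∈ {G | HasConf G} then 1 else 0) ≤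
        (Xn n G * Xn n G - (2 * mu n p) * Xn n G) + (mu n p * mu n p) * 1 := by
    intro G
    by_cases hG : HasConf G
    · rw [if_pos (show G ∈ {G | HasConf G} from hG)]
      nlinarith [sq_nonneg (Xn n G - mu n p)]
    · have hX : Xn n G = 0 := by
        unfold Xn
        refine Finset.sum_eq_zero fun f hf => ?_
        by_contra hne
        exact hG (hasConf_of_In (mem_Inj.1 hf) hne)
      rw [if_neg (show G ∉ {G | HasConf G} from hG), hX]
      linarith
  have h := Ex_mono h0 h1 hpt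
  rw [Ex_mul_left, Ex_sub, Ex_add, Ex_sub, Ex_mul_left, Ex_mul_left, ha n p,
    ← gnp_eq n p {G | HasConf G}] at h
  have hm : Ex n p (Xn n) = mu n p := by
    unfold Xn mu
    exact Ex_sum _ _ _
  rw [hm] at h
  have h2 := second_moment ha hb hc h0 h1 hp hn hnp
  linarith

/-! ### Numerics -/

theorem exp_le_one_sub {x : ℝ} (h0 : 0 ≤ x) (h1 : x ≤ 1 / 2) : Real.exp (-(2 * x)) ≤ 1 - x := by
  rw [Real.exp_neg]
  have h2 : 1 + 2 * x ≤ Real.exp (2 * x) := by
    have := Real.add_one_le_exp (2 * x)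
    linarith
  have h3 : 0 < 1 + 2 * x := by linarith
  refine (inv_anti₀ h3 h2).trans ?_
  rw [inv_le_iff_one_le_mul₀ h3]
  nlinarith

theorem st_P4 (ha : ST_P0a) (hb : ST_P0b) (hc : ST_P0c) : ST_P4 := by
  intro K η hη
  obtain ⟨K', hK', hK1⟩ : ∃ K' : ℝ, K ≤ K' ∧ 1 ≤ K' := ⟨max K 1, le_max_left _ _, le_max_right _ _⟩
  obtain ⟨c, hcdef⟩ : ∃ c : ℝ, c = Real.exp (-(10 * K')) / 2 ^ 10 := ⟨_, rfl⟩
  have hc0 : 0 < c := by rw [hcdef]; exact div_pos (Real.exp_pos _) (by norm_num)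
  obtain ⟨R, hR⟩ : ∃ R : ℝ, R = 3 * 10 ^ 5 / (c ^ 2 * η) := ⟨_, rfl⟩
  have hR0 : 0 < R := by rw [hR]; exact div_pos (by norm_num) (mul_pos (pow_pos hc0 2) hη)
  have hRη : 10 ^ 5 / c ^ 2 = R * η / 3 := by
    rw [hR]
    have := hc0.ne'
    have := hη.ne'
    field_simp
  obtain ⟨N, hN⟩ := exists_nat_ge (max (max 8 R) (max (300 * K' / η) (100 * K')))
  refine ⟨max 1 R, N, ?_⟩
  intro n p hn hp0 hp1 hA hKn
  have hnN : (N : ℝ) ≤ n := by exact_mod_cast hn
  have hm := hN.trans hnN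
  have hn8 : (8 : ℝ) ≤ n := ((le_max_left _ _).trans (le_max_left _ _)).trans hm
  have hnR : R ≤ n := ((le_max_right _ _).trans (le_max_left _ _)).trans hm
  have hnη : 300 * K' / η ≤ n := ((le_max_left _ _).trans (le_max_right _ _)).trans hm
  have hnK : 100 * K' ≤ n := ((le_max_right _ _).trans (le_max_right _ _)).trans hm
  have hn8' : 8 ≤ n := by exact_mod_cast hn8
  have hn0 : (0 : ℝ) < n := by linarith
  have hnp1 : 1 ≤ n * p := (le_max_left _ _).trans hA
  have hnpR : R ≤ n * p := (le_max_right _ _).trans hA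
  have hp2 : p ^ 2 ≤ K' / n := by
    rw [le_div_iff₀ hn0]
    linarith
  obtain ⟨x, hx⟩ : ∃ x : ℝ, x = 5 * K' / n := ⟨_, rfl⟩
  have hx0 : 0 ≤ x := by
    rw [hx]
    exact div_nonneg (by linarith) hn0.le
  have hx1 : x ≤ 1 / 20 := by
    rw [hx, div_le_iff₀ hn0]
    linarith
  have hpx : 5 * p ^ 2 ≤ x := by
    rw [hx, mul_div_assoc]
    linarith
  have hp5 : 5 * p ^ 2 < 1 := by linarith
  have hphalf : p ≤ 1 / 2 := by
    by_contra hcon
    push Not at hcon
    nlinarith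
  have hq : 1 - x ≤ 1 - 5 * p ^ 2 := by linarith
  have hx1' : 0 < 1 - x := by linarith
  -- first term
  have hq10 : 1 - 10 * x ≤ (1 - 5 * p ^ 2) ^ 10 := by
    have h1 := one_add_mul_le_pow (a := -x) (by linarith) 10
    have h2 : (1 - x) ^ 10 ≤ (1 - 5 * p ^ 2) ^ 10 := pow_le_pow_left₀ hx1'.le hq 10
    have h3 : 1 - 10 * x ≤ (1 - x) ^ 10 := by
      have e : (1 + -x : ℝ) = 1 - x := by ring
      rw [e] at h1
      push_cast at h1
      linarith
    linarith
  have hfirst : ((1 - 5 * p ^ 2) ^ 10)⁻¹ - 1 ≤ η / 3 := by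
    have h1 : 0 < 1 - 10 * x := by linarith
    have h2 : ((1 - 5 * p ^ 2) ^ 10)⁻¹ ≤ (1 - 10 * x)⁻¹ := inv_anti₀ h1 hq10
    have h3 : (1 - 10 * x)⁻¹ ≤ 1 + 20 * x := by
      rw [inv_le_iff_one_le_mul₀ h1]
      nlinarith
    have h4 : 20 * x ≤ η / 3 := by
      rw [hx]
      rw [div_le_iff₀ hη] at hnη
      have : 20 * (5 * K' / n) = 100 * K' / n := by ring
      rw [this, div_le_iff₀ hn0]
      linarith
    linarith
  -- mean
  have hqn : Real.exp (-(10 * K')) ≤ (1 - 5 * p ^ 2) ^ n := by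
    have h1 : (1 - x) ^ n ≤ (1 - 5 * p ^ 2) ^ n := pow_le_pow_left₀ hx1'.le hq n
    have h2 : Real.exp (-(2 * x)) ^ n ≤ (1 - x) ^ n :=
      pow_le_pow_left₀ (Real.exp_pos _).le (exp_le_one_sub hx0 (by linarith)) n
    have h3 : Real.exp (-(2 * x)) ^ n = Real.exp (-(10 * K')) := by
      rw [← Real.exp_nat_mul]
      congr 1
      rw [hx]
      field_simp
      ring
    linarith
  have hmu : c * (n * p) ^ 5 ≤ mu n p := by
    refine le_trans ?_ (mu_ge ha hb hc hp0.le hp1.le hp5.le hn8')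
    have h1 : (1 / 2 : ℝ) ^ 5 ≤ (1 - p) ^ 5 := pow_le_pow_left₀ (by norm_num) (by linarith) 5
    have h2 : (1 / 2 : ℝ) ^ 5 * Real.exp (-(10 * K')) ≤ (1 - p) ^ 5 * (1 - 5 * p ^ 2) ^ n :=
      mul_le_mul h1 hqn (Real.exp_pos _).le (pow_nonneg (by linarith) 5)
    have h3 : 0 ≤ ((n : ℝ) / 2) ^ 5 * p ^ 5 :=
      mul_nonneg (pow_nonneg (by linarith) 5) (pow_nonneg hp0.le 5)
    calc c * (n * p) ^ 5 = (((n : ℝ) / 2) ^ 5 * p ^ 5) *
          ((1 / 2 : ℝ) ^ 5 * Real.exp (-(10 * K'))) := by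
          rw [hcdef]
          ring
      _ ≤ (((n : ℝ) / 2) ^ 5 * p ^ 5) * ((1 - p) ^ 5 * (1 - 5 * p ^ 2) ^ n) :=
          mul_le_mul_of_nonneg_left h2 h3
      _ = _ := by ring
  have hnp0 : 0 < n * p := by linarith
  have hcm : 0 < c * (n * p) ^ 5 := mul_pos hc0 (pow_pos hnp0 5)
  have hmu0 : 0 < mu n p := lt_of_lt_of_le hcm hmu
  have hmm : 0 < mu n p * mu n p := mul_pos hmu0 hmu0
  have hcheb := chebyshev ha hb hc hp0.le hp1.le hp5 (by omega : 0 < n) hnp1
  -- second term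
  have hsecond : 10 ^ 5 * ((n * p) ^ 10 / n + (n * p) ^ 5) ≤ (2 * η / 3) * (mu n p * mu n p) := by
    have h1 : (c * (n * p) ^ 5) * (c * (n * p) ^ 5) ≤ mu n p * mu n p :=
      mul_le_mul hmu hmu hcm.le hmu0.le
    have h2 : (2 * η / 3) * ((c * (n * p) ^ 5) * (c * (n * p) ^ 5)) ≤
        (2 * η / 3) * (mu n p * mu n p) := mul_le_mul_of_nonneg_left h1 (by linarith)
    refine le_trans ?_ h2
    have hc2 : (10 : ℝ) ^ 5 = R * η / 3 * c ^ 2 := by
      rw [← hRη]
      have := hc0.ne'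
      field_simp
    have h3 : R * ((n * p) ^ 10 / n) ≤ (n * p) ^ 10 := by
      have : 0 ≤ (n * p) ^ 10 / n := div_nonneg (pow_nonneg hnp0.le 10) hn0.le
      calc R * ((n * p) ^ 10 / n) ≤ n * ((n * p) ^ 10 / n) := mul_le_mul_of_nonneg_right hnR this
        _ = _ := by field_simp
    have h4 : R * (n * p) ^ 5 ≤ (n * p) ^ 10 := by
      have h5 : n * p ≤ (n * p) ^ 5 := le_self_pow₀ hnp1 (by norm_num)
      calc R * (n * p) ^ 5 ≤ (n * p) ^ 5 * (n * p) ^ 5 :=
            mul_le_mul_of_nonneg_right (hnpR.trans h5) (pow_nonneg hnp0.le 5)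
        _ = _ := by ring
    have h6 : R * ((n * p) ^ 10 / n + (n * p) ^ 5) ≤ 2 * (n * p) ^ 10 := by linarith
    have h7 : 0 ≤ η / 3 * c ^ 2 := mul_nonneg (by linarith) (pow_nonneg hc0.le 2)
    calc 10 ^ 5 * ((n * p) ^ 10 / n + (n * p) ^ 5)
        = (η / 3 * c ^ 2) * (R * ((n * p) ^ 10 / n + (n * p) ^ 5)) := by
          rw [hc2]
          ring
      _ ≤ (η / 3 * c ^ 2) * (2 * (n * p) ^ 10) := mul_le_mul_of_nonneg_left h6 h7
      _ = _ := by ring
  have hfin : (mu n p * mu n p) * (1 - gnp n p {G | HasConf G}) ≤ (mu n p * mu n p) * η := by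
    have h1 : (((1 - 5 * p ^ 2) ^ 10)⁻¹ - 1) * (mu n p * mu n p) ≤ η / 3 * (mu n p * mu n p) :=
      mul_le_mul_of_nonneg_right hfirst hmm.le
    linarith
  exact le_of_mul_le_mul_left hfin hmm

end Pool.Agent.Helper55.RC
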